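import Mathlib

set_option autoImplicit false

namespace Pool.Agent.Results.MP_ef197a_an.Balls

open Metric Filter Topology

/-- `P` is the nearest-point projection onto `C`. -/
def IsProj {E : Type*} [NormedAddCommGroup E] (C : Set E) (P : E → E) : Prop :=
  ∀ x, P x ∈ C ∧ ∀ y ∈ C, ‖x - P x‖ ≤ ‖x - y‖

/-- The Douglas-Rachford operator `(Id + R_B R_A) / 2` built from the projections `P`, `Q`. -/
noncomputable def DR {E : Type*} [NormedAddCommGroup E] [NormedSpace ℝ E] (P Q : E → E) (x : E) : E :=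
  (1 / 2 : ℝ) • (x + ((2 : ℝ) • Q ((2 : ℝ) • P x - x) - ((2 : ℝ) • P x - x)))

section Aux

variable {E : Type*} [NormedAddCommGroup E] [InnerProductSpace ℝ E]

lemma vi {C : Set E} (hC : Convex ℝ C) {x p : E} (hp : p ∈ C) (h : ∀ y ∈ C, ‖x - p‖ ≤ ‖x - y‖) :
    ∀ y ∈ C, inner ℝ (x - p) (y - p) ≤ 0 := by
  have : Nonempty C := ⟨⟨p, hp⟩⟩
  refine (norm_eq_iInf_iff_real_inner_le_zero hC hp).1 (le_antisymm (le_ciInf fun y => h y y.2) ?_)
  exact ciInf_le ⟨0, by rintro _ ⟨y, rfl⟩; exact norm_nonneg _⟩ (⟨p, hp⟩ : C)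

lemma refl_le {C : Set E} (hC : Convex ℝ C) {P : E → E} (h : IsProj C P) (x y : E) :
    ‖((2 : ℝ) • P x - x) - ((2 : ℝ) • P y - y)‖ ^ 2 ≤ ‖x - y‖ ^ 2 := by
  have a := vi hC (h x).1 (h x).2 _ (h y).1
  have b := vi hC (h y).1 (h y).2 _ (h x).1
  rw [← neg_sub (P x) (P y), inner_neg_right] at a
  have c : inner ℝ (x - P x) (P x - P y) - inner ℝ (y - P y) (P x - P y)
      = inner ℝ (x - y) (P x - P y) - ‖P x - P y‖ ^ 2 := by
    rw [← real_inner_self_eq_norm_sq, ← inner_sub_left, ← inner_sub_left]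
    congr 1; abel
  rw [show ((2 : ℝ) • P x - x) - ((2 : ℝ) • P y - y) = (2 : ℝ) • (P x - P y) - (x - y) by module,
    norm_sub_sq_real, norm_smul, inner_smul_left, real_inner_comm]
  simp only [Real.norm_ofNat, conj_trivial]
  nlinarith

lemma firm {A B : Set E} (hA : Convex ℝ A) (hB : Convex ℝ B) {P Q : E → E} (hP : IsProj A P)
    (hQ : IsProj B Q) (x y : E) :
    ‖DR P Q x - DR P Q y‖ ^ 2 + ‖(x - DR P Q x) - (y - DR P Q y)‖ ^ 2 ≤ ‖x - y‖ ^ 2 := by
  have a := (refl_le hB hQ _ _).trans (refl_le hA hP x y)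
  unfold DR
  generalize (2 : ℝ) • Q ((2 : ℝ) • P x - x) - ((2 : ℝ) • P x - x) = p at *
  generalize (2 : ℝ) • Q ((2 : ℝ) • P y - y) - ((2 : ℝ) • P y - y) = q at *
  rw [show (1 / 2 : ℝ) • (x + p) - (1 / 2 : ℝ) • (y + q) = (1 / 2 : ℝ) • ((x - y) + (p - q)) by
    module, show x - (1 / 2 : ℝ) • (x + p) - (y - (1 / 2 : ℝ) • (y + q))
      = (1 / 2 : ℝ) • ((x - y) - (p - q)) by module, norm_smul, norm_smul, mul_pow, mul_pow,
    norm_add_sq_real, norm_sub_sq_real (x - y)]
  norm_num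
  linarith

lemma dr_eq (P Q : E → E) (x : E) : DR P Q x = x - P x + Q ((2 : ℝ) • P x - x) := by
  unfold DR; module

lemma anti_lim {f : ℕ → ℝ} (h : ∀ n, f (n + 1) ≤ f n) (h0 : ∀ n, 0 ≤ f n) :
    ∃ l, Tendsto f atTop (𝓝 l) :=
  ⟨_, tendsto_atTop_ciInf (antitone_nat_of_succ_le h) ⟨0, by rintro _ ⟨n, rfl⟩; exact h0 n⟩⟩

omit [InnerProductSpace ℝ E] in
lemma km [ProperSpace E] {T : E → E}
    (h : ∀ x y, ‖T x - T y‖ ^ 2 + ‖(x - T x) - (y - T y)‖ ^ 2 ≤ ‖x - y‖ ^ 2) {z : E} (hz : T z = z)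
    (x : E) : ∃ l, Tendsto (fun n => T^[n] x) atTop (𝓝 l) := by
  have ne : ∀ x y, ‖T x - T y‖ ≤ ‖x - y‖ := fun x y =>
    (abs_le_of_sq_le_sq' (by nlinarith [h x y]) (norm_nonneg _)).2
  have fe : ∀ w, T w = w → ∀ n, ‖T^[n + 1] x - w‖ ≤ ‖T^[n] x - w‖ := fun w hw n => by
    have := ne (T^[n] x) w
    rwa [hw, ← Function.iterate_succ_apply' T] at this
  obtain ⟨D, hD⟩ := anti_lim (f := fun n => ‖T^[n] x - z‖) (fe z hz) fun _ => norm_nonneg _
  have ar : Tendsto (fun n => ‖T^[n] x - T (T^[n] x)‖ ^ 2) atTop (𝓝 0) := by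
    have := (hD.pow 2).sub ((hD.comp (tendsto_add_atTop_nat 1)).pow 2)
    rw [sub_self] at this
    refine squeeze_zero (fun _ => by positivity) (fun n => ?_) this
    have := h (T^[n] x) z
    simp only [hz, sub_self, sub_zero] at this
    simp only [Function.comp, Function.iterate_succ_apply']
    linarith
  obtain ⟨w, -, φ, hφ, hw⟩ := tendsto_subseq_of_bounded (isBounded_closedBall (x := z) (r := ‖x - z‖))
    (x := fun n => T^[n] x) fun n => by
      rw [mem_closedBall, dist_eq_norm]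
      exact antitone_nat_of_succ_le (f := fun n => ‖T^[n] x - z‖) (fe z hz) (Nat.zero_le n)
  have ct : Continuous T := (LipschitzWith.of_dist_le_mul (K := 1) fun x y => by
    simpa [dist_eq_norm] using ne x y).continuous
  have e : T w = w := by
    have := tendsto_nhds_unique (ar.comp hφ.tendsto_atTop)
      ((hw.sub ((ct.tendsto w).comp hw)).norm.pow 2)
    exact (sub_eq_zero.1 (norm_eq_zero.1 (pow_eq_zero_iff two_ne_zero |>.1 this.symm))).symm
  obtain ⟨L, hL⟩ := anti_lim (f := fun n => ‖T^[n] x - w‖) (fe w e) fun _ => norm_nonneg _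
  obtain rfl := tendsto_nhds_unique (hL.comp hφ.tendsto_atTop) (tendsto_iff_norm_sub_tendsto_zero.1 hw)
  exact ⟨w, tendsto_iff_norm_sub_tendsto_zero.2 hL⟩

lemma ray {a : E} {r : ℝ} (hr : 0 ≤ r) {P : E → E} (h : IsProj (closedBall a r) P) {u : E}
    (hu : ‖u‖ = 1) {t : ℝ} (ht : 0 ≤ t) : P (a + (r + t) • u) = a + r • u := by
  have m : a + r • u ∈ closedBall a r := by simp [norm_smul, hu, abs_of_nonneg hr]
  have b := vi (convex_closedBall a r) (h _).1 (h (a + (r + t) • u)).2 _ m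
  have c := vi (convex_closedBall a r) m (x := a + (r + t) • u) (fun y hy => by
    have := norm_sub_le_norm_sub_add_norm_sub (a + (r + t) • u) y a
    rw [mem_closedBall, dist_eq_norm] at hy
    rw [show a + (r + t) • u - (a + r • u) = t • u by module]
    simp only [add_sub_cancel_left, norm_smul, hu, Real.norm_eq_abs, abs_of_nonneg ht,
      abs_of_nonneg (add_nonneg hr ht)] at this ⊢
    linarith) _ (h (a + (r + t) • u)).1
  generalize P (a + (r + t) • u) = p at *
  generalize a + (r + t) • u = x at *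
  generalize a + r • u = q at *
  have d : inner ℝ (x - p) (q - p) + inner ℝ (x - q) (p - q) = ‖p - q‖ ^ 2 := by
    rw [← neg_sub p q, inner_neg_right, ← real_inner_self_eq_norm_sq, neg_add_eq_sub,
      ← inner_sub_left]
    congr 1; abel
  exact sub_eq_zero.1 (norm_eq_zero.1 (by nlinarith [norm_nonneg (p - q)]))

lemma rad {a : E} {r : ℝ} (hr : 0 ≤ r) {P : E → E} (h : IsProj (closedBall a r) P) (x : E) :
    ∃ c : ℝ, 0 ≤ c ∧ c ≤ 1 ∧ P x - a = c • (x - a) := by
  by_cases hx : ‖x - a‖ ≤ r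
  · have := (h x).2 x (by rwa [mem_closedBall, dist_eq_norm])
    rw [sub_self, norm_zero, norm_le_zero_iff, sub_eq_zero] at this
    exact ⟨1, zero_le_one, le_rfl, by rw [← this, one_smul]⟩
  · have p : 0 < ‖x - a‖ := by linarith
    have := ray hr h (u := ‖x - a‖⁻¹ • (x - a)) (by simp [norm_smul, p.ne']) (t := ‖x - a‖ - r)
      (by linarith)
    rw [add_sub_cancel, smul_smul, mul_inv_cancel₀ p.ne', one_smul, add_sub_cancel] at this
    refine ⟨r * ‖x - a‖⁻¹, by positivity, ?_, by rw [this, smul_smul, add_sub_cancel_left]⟩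
    rw [← div_eq_mul_inv, div_le_one p]
    linarith

end Aux

/-- For two closed balls in Euclidean space the shifted Douglas-Rachford iterates converge. -/
theorem result (d : ℕ) (a b : EuclideanSpace ℝ (Fin d)) (r s : ℝ) (hr : 0 ≤ r) (hs : 0 ≤ s)
    (P Q : EuclideanSpace ℝ (Fin d) → EuclideanSpace ℝ (Fin d))
    (hP : IsProj (closedBall a r) P) (hQ : IsProj (closedBall b s) Q)
    (v : EuclideanSpace ℝ (Fin d)) (hv : v ∈ closure (Set.range fun x => x - DR P Q x))
    (hmin : ∀ w ∈ closure (Set.range fun x => x - DR P Q x), ‖v‖ ≤ ‖w‖)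
    (x : EuclideanSpace ℝ (Fin d)) :
    ∃ l, Tendsto (fun n : ℕ => (DR P Q)^[n] x + (n : ℝ) • v) atTop (𝓝 l) := by
  have fm := firm (convex_closedBall a r) (convex_closedBall b s) hP hQ
  by_cases hd : dist a b ≤ r + s
  · obtain ⟨z, za, zb⟩ := exists_dist_le_le hr hs (hd.trans_eq (add_comm _ _))
    have e : ∀ {C P}, IsProj C P → z ∈ C → P z = z := fun h m => by
      have := (h z).2 z m
      rw [sub_self, norm_zero, norm_le_zero_iff, sub_eq_zero] at this
      exact this.symm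
    have hz : DR P Q z = z := by
      rw [dr_eq, e hP (mem_closedBall'.2 za), two_smul, add_sub_cancel_right, e hQ zb]; simp
    have := hmin 0 (subset_closure ⟨z, by simp [hz]⟩)
    rw [norm_zero, norm_le_zero_iff] at this
    simpa [this] using km fm hz x
  obtain ⟨δ, hδ⟩ : ∃ δ, δ = ‖b - a‖ - r - s := ⟨_, rfl⟩
  rw [dist_comm, dist_eq_norm] at hd
  have p : 0 < ‖b - a‖ := by linarith
  have δ0 : 0 < δ := by linarith
  obtain ⟨u, hu⟩ : ∃ u, u = ‖b - a‖⁻¹ • (b - a) := ⟨_, rfl⟩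
  have u1 : ‖u‖ = 1 := by simp [hu, norm_smul, p.ne']
  have uu : inner ℝ u u = 1 := by rw [real_inner_self_eq_norm_sq, u1]; norm_num
  have eb : b = a + (r + δ + s) • u := by
    rw [hu, smul_smul, show r + δ + s = ‖b - a‖ by linarith, mul_inv_cancel₀ p.ne']; simp
  have tr : ∀ t, 0 ≤ t → DR P Q (a + (r + t) • u) = a + (r + (t + δ)) • u := by
    intro t ht
    rw [dr_eq, ray hr hP u1 ht, show (2 : ℝ) • (a + r • u) - (a + (r + t) • u)
      = b + (s + (t + δ)) • (-u) by rw [eb]; module, ray hs hQ (by simpa) (by linarith), eb]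
    module
  have ev : v = -δ • u := by
    have c1 := hmin (-δ • u) (subset_closure ⟨a + (r + 0) • u, by simp only [tr 0 le_rfl]; module⟩)
    have c2 : inner ℝ u v ≤ -δ := by
      refine closure_minimal (t := {w | inner ℝ u w ≤ -δ}) ?_
        (isClosed_le (by fun_prop) continuous_const) hv
      rintro _ ⟨y, rfl⟩
      have e1 := real_inner_le_norm u (P y - a)
      have e2 := real_inner_le_norm u (b - Q ((2 : ℝ) • P y - y))
      have e3 := mem_closedBall_iff_norm.1 (hP y).1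
      have e4 := mem_closedBall_iff_norm'.1 (hQ ((2 : ℝ) • P y - y)).1
      have e5 : y - DR P Q y = (P y - a) + (b - Q ((2 : ℝ) • P y - y)) - (r + δ + s) • u := by
        rw [dr_eq, ← add_sub_cancel_left a ((r + δ + s) • u), ← eb]; abel
      simp only [Set.mem_ofPred_eq, e5, inner_sub_right u (_ + _), inner_add_right, inner_smul_right, uu]
      rw [u1] at e1 e2
      linarith
    rw [norm_smul, u1, Real.norm_eq_abs, abs_neg, abs_of_pos δ0, mul_one] at c1
    have c3 := norm_add_sq_real v (δ • u)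
    rw [norm_smul, u1, inner_smul_right, real_inner_comm, Real.norm_eq_abs, abs_of_pos δ0] at c3
    rw [neg_smul, ← add_eq_zero_iff_eq_neg, ← norm_eq_zero]
    nlinarith [norm_nonneg v, norm_nonneg (v + δ • u)]
  have fe : ∀ t, 0 ≤ t → ∃ l, Tendsto
      (fun n : ℕ => ‖(DR P Q)^[n] x + (n : ℝ) • v - a - (r + t) • u‖) atTop (𝓝 l) := by
    refine fun t ht => anti_lim (fun n => ?_) fun _ => norm_nonneg _
    have := fm ((DR P Q)^[n] x) (a + (r + (t + n * δ)) • u)
    rw [tr _ (by positivity), ← Function.iterate_succ_apply' (DR P Q)] at this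
    have e : ∀ (y) (c : ℝ), y + c • v - a - (r + t) • u = y - (a + (r + (t + c * δ)) • u) := by
      intro y c; rw [ev]; module
    rw [e, e, Nat.cast_succ, show t + (n + 1) * δ = t + n * δ + δ by ring]
    exact (abs_le_of_sq_le_sq' (by nlinarith) (norm_nonneg _)).2
  obtain ⟨l0, h0⟩ := fe 0 le_rfl
  obtain ⟨l1, h1⟩ := fe 1 zero_le_one
  obtain ⟨q, hq⟩ : ∃ q : EuclideanSpace ℝ (Fin d) →ₗ[ℝ] EuclideanSpace ℝ (Fin d),
      ∀ y, q y = y - inner ℝ u y • u :=
    ⟨LinearMap.id - (innerₛₗ ℝ u).smulRight u, fun _ => rfl⟩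
  have qu : q u = 0 := by simp [hq, u1]
  have hκ : ∀ y, ∃ c : ℝ, 0 ≤ c ∧ c ≤ 1 ∧ q (DR P Q y - a) = c • q (y - a) := by
    intro y
    obtain ⟨c, c0, c1, c2⟩ := rad hr hP y
    obtain ⟨e, e0, e1, e2⟩ := rad hs hQ ((2 : ℝ) • P y - y)
    refine ⟨(1 - e) * (1 - c) + e * c, by nlinarith, by nlinarith, ?_⟩
    rw [sub_eq_iff_eq_add] at c2 e2
    rw [dr_eq, e2, c2, eb, show y - (c • (y - a) + a) + (e • ((2 : ℝ) • (c • (y - a) + a) - y
      - (a + (r + δ + s) • u)) + (a + (r + δ + s) • u)) - a = ((1 - e) * (1 - c) + e * c) • (y - a)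
      + ((1 - e) * (r + δ + s)) • u by module, map_add, map_smul, map_smul, qu]
    simp
  choose κ κ0 κ1 κ2 using hκ
  have pr : ∀ n, 0 ≤ ∏ i ∈ Finset.range n, κ ((DR P Q)^[i] x) :=
    fun n => Finset.prod_nonneg fun _ _ => κ0 _
  obtain ⟨c, hc⟩ := anti_lim (f := fun n => ∏ i ∈ Finset.range n, κ ((DR P Q)^[i] x))
    (fun n => by rw [Finset.prod_range_succ]; exact mul_le_of_le_one_right (pr n) (κ1 _)) pr
  have qe : ∀ n, q ((DR P Q)^[n] x - a)
      = (∏ i ∈ Finset.range n, κ ((DR P Q)^[i] x)) • q (x - a) := by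
    intro n
    induction n with
    | zero => simp
    | succ n ih => rw [Function.iterate_succ_apply', κ2, ih, smul_smul, Finset.prod_range_succ, mul_comm]
  refine ⟨_, (((hc.smul_const (q (x - a))).add ((((h0.pow 2).sub (h1.pow 2)).add_const 1
    |>.div_const 2).smul_const u)).add_const (a + r • u)).congr fun n => ?_⟩
  rw [← qe]
  generalize (DR P Q)^[n] x = y
  have e1 : q (y - a) = q (y + (n : ℝ) • v - a - (r + 0) • u) := by
    rw [show y + (n : ℝ) • v - a - (r + 0) • u = y - a - (n * δ + r) • u by rw [ev]; module,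
      map_sub q (y - a), map_smul, qu]; simp
  rw [e1, show y + (n : ℝ) • v - a - (r + 1) • u = y + (n : ℝ) • v - a - (r + 0) • u - u by module,
    norm_sub_sq_real _ u, hq, u1, real_inner_comm]
  module

end Pool.Agent.Results.MP_ef197a_an.Balls
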